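import Mathlib
import Pool.Agent.KS6_20.DR.Rate
import Pool.Graph.R_seed8.Y924.DV.Comp

/-!
# Largest subsets of `[1,n]` with no element dividing two others: the error term

Let `f n` be the largest cardinality of a subset of `[1,n]` in which no element divides two others.
We prove `f n = c n + O(n exp(-(1/64) √(log n log log n)))` with `0.67294 ≤ c ≤ 0.673`.

The same error term, with an absolute implied constant, holds for the largest cardinality of a
subset of `[1,n]` in which no element divides `r` others, for all `r` at once, and, with a constant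
`C (L+1)`, for the largest cardinality of a subset of `[1,n]` without dilates of the sets of any
`L`-local family; the constant `c` is given by a limit formula with error at most `1/N`.
-/

set_option autoImplicit false

namespace Pool.Agent.Results.MP_24d8b2_nt.ErrorTerm

open Filter Topology

/-- No element of `A` divides two others. -/
def Admissible (A : Finset ℕ) : Prop :=
  ∀ a ∈ A, ∀ b ∈ A, ∀ c ∈ A, a ≠ b → a ≠ c → b ≠ c → ¬ (a ∣ b ∧ a ∣ c)

/-- The largest cardinality of an admissible subset of `[1,n]`. -/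
noncomputable def f (n : ℕ) : ℕ :=
  sSup {k | ∃ A : Finset ℕ, A ⊆ Finset.Icc 1 n ∧ Admissible A ∧ A.card = k}

/-- No element of `A` divides `r` other elements of `A`. -/
def AdmissibleR (r : ℕ) (A : Finset ℕ) : Prop :=
  ∀ a ∈ A, ¬ ∃ B : Finset ℕ, B ⊆ A ∧ B.card = r ∧ ∀ b ∈ B, b ≠ a ∧ a ∣ b

/-- The largest cardinality of a subset of `[1,n]` in which no element divides `r` others. -/
noncomputable def fr (r n : ℕ) : ℕ :=
  sSup {k | ∃ A : Finset ℕ, A ⊆ Finset.Icc 1 n ∧ AdmissibleR r A ∧ A.card = k}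

/-- `A` contains no dilate `{m * d : d ∈ D}` of a set `D` of the family `𝓓`. -/
def Avoids (𝓓 : Set (Set ℕ)) (A : Finset ℕ) : Prop :=
  ∀ D ∈ 𝓓, ∀ m : ℕ, ¬ ∀ d ∈ D, m * d ∈ A

/-- The members of the family are nonempty sets of positive integers, and every prime `p` dividing
an element of a member `D` is at most `L` or at most the quotient of two elements of `D`. -/
def IsLocal (L : ℕ) (𝓓 : Set (Set ℕ)) : Prop :=
  ∀ D ∈ 𝓓, D.Nonempty ∧ ∀ d ∈ D, 0 < d ∧ ∀ p : ℕ, p.Prime → p ∣ d →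
    p ≤ L ∨ ∃ a ∈ D, ∃ b ∈ D, p * a ≤ b

/-- The largest cardinality of a subset of `[1,n]` avoiding the family. -/
noncomputable def ex (𝓓 : Set (Set ℕ)) (n : ℕ) : ℕ :=
  sSup {k | ∃ A : Finset ℕ, A ⊆ Finset.Icc 1 n ∧ Avoids 𝓓 A ∧ A.card = k}

/-- The largest cardinality of a subset of `[1,j]` avoiding the family, all of whose elements have
all their prime factors below `N`. -/
noncomputable def g (𝓓 : Set (Set ℕ)) (N j : ℕ) : ℕ :=
  sSup {k | ∃ A : Finset ℕ, A ⊆ Finset.Icc 1 j ∧ (∀ a ∈ A, ∀ p : ℕ, p.Prime → p ∣ a → p < N) ∧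
    Avoids 𝓓 A ∧ A.card = k}

/-- The `N`-th approximation of the density (the term with `j = 0` is `0`). -/
noncomputable def dens (𝓓 : Set (Set ℕ)) (N : ℕ) : ℝ :=
  (∏ p ∈ Nat.primesBelow N, (1 - 1 / (p : ℝ))) * ∑' j : ℕ, (g 𝓓 N j : ℝ) / ((j : ℝ) * (j + 1))

/-- The error term. -/
noncomputable def err (n : ℕ) : ℝ :=
  n * Real.exp (-(1 / 64) * √(Real.log n * Real.log (Real.log n)))

open Pool.Agent.KS6_20 in
theorem ex_eq (𝓓 : Set (Set ℕ)) (n : ℕ) : ex 𝓓 n = DR.f 𝓓 n := by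
  unfold ex DR.f DR.mx
  congr 1
  ext k
  simp only [Set.mem_ofPred_eq]
  constructor
  · rintro ⟨A, h1, h2, h3⟩
    exact ⟨A, h1, fun _ _ => trivial, h2, h3⟩
  · rintro ⟨A, h1, _, h2, h3⟩
    exact ⟨A, h1, h2, h3⟩

open Pool.Agent.KS6_20 in
theorem g_eq (𝓓 : Set (Set ℕ)) (N j : ℕ) : g 𝓓 N j = DR.g 𝓓 N j := by
  unfold g DR.g DR.mx
  congr 1
  ext k
  simp only [Set.mem_ofPred_eq]
  constructor
  · rintro ⟨A, h1, h0, h2, h3⟩
    refine ⟨A, h1, fun a ha => ?_, h2, h3⟩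
    rw [Nat.mem_smoothNumbers']
    exact h0 a ha
  · rintro ⟨A, h1, h0, h2, h3⟩
    refine ⟨A, h1, fun a ha => ?_, h2, h3⟩
    have := h0 a ha
    rw [Nat.mem_smoothNumbers'] at this
    exact this

open Pool.Agent.KS6_20 in
theorem dens_eq (𝓓 : Set (Set ℕ)) (N : ℕ) : dens 𝓓 N = DR.cc 𝓓 N := by
  unfold dens DR.cc
  simp only [g_eq]
  rfl

/-- the general theorem -/
theorem general : ∃ C : ℝ, 0 < C ∧ ∀ (L : ℕ) (𝓓 : Set (Set ℕ)), IsLocal L 𝓓 →
    ∃ c : ℝ, 0 ≤ c ∧ c ≤ 1 ∧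
      (∀ n : ℕ, 3 ≤ n → |(ex 𝓓 n : ℝ) - c * n| ≤ C * (L + 1) * err n) ∧
      Tendsto (fun n : ℕ => (ex 𝓓 n : ℝ) / n) atTop (𝓝 c) ∧
      (∀ N : ℕ, c ≤ dens 𝓓 N) ∧ ∀ N : ℕ, L < N → dens 𝓓 N ≤ c + 1 / N := by
  obtain ⟨C, hC, h⟩ := Pool.Agent.KS6_20.DR.rate
  refine ⟨C, hC, fun L 𝓓 h𝓓 => ?_⟩
  have hF : Pool.Agent.KS6_20.DR.Loc L 𝓓 := h𝓓
  obtain ⟨c, h1, h2, h3⟩ := Pool.Agent.KS6_20.DR.limit_exists hF
  obtain ⟨h4, h5⟩ := Pool.Agent.KS6_20.DR.lim_mem (fun D hD => (hF D hD).1) h1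
  refine ⟨c, h4, h5, fun n hn => ?_, ?_, fun N => ?_, fun N hN => ?_⟩
  · rw [ex_eq]
    refine (h L 𝓓 hF c h1 n hn).trans (le_of_eq ?_)
    unfold err
    ring
  · simp only [ex_eq]
    exact h1
  · rw [dens_eq]
    exact h2 N
  · rw [dens_eq]
    exact h3 N hN

/-- the family of the sets `{1} ∪ B` with `r` elements `≥ 2` in `B` -/
def fam (r : ℕ) : Set (Set ℕ) :=
  {D | ∃ B : Finset ℕ, B.card = r ∧ (∀ b ∈ B, 2 ≤ b) ∧ D = insert 1 (B : Set ℕ)}

theorem fam_local (r : ℕ) : IsLocal 0 (fam r) := by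
  rintro D ⟨B, -, hB, rfl⟩
  refine ⟨⟨1, Set.mem_insert _ _⟩, fun d hd => ?_⟩
  rcases hd with rfl | hd
  · refine ⟨one_pos, fun p hp hp1 => ?_⟩
    exact absurd (Nat.dvd_one.mp hp1) hp.one_lt.ne'
  · have hd2 := hB d (by simpa using hd)
    refine ⟨by omega, fun p hp hpd => Or.inr ⟨1, Set.mem_insert _ _, d, ?_, ?_⟩⟩
    · exact Set.mem_insert_of_mem _ hd
    · rw [mul_one]
      exact Nat.le_of_dvd (by omega) hpd

theorem avoids_iff {r n : ℕ} {A : Finset ℕ} (hA : A ⊆ Finset.Icc 1 n) :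
    Avoids (fam r) A ↔ AdmissibleR r A := by
  classical
  constructor
  · rintro h a ha ⟨B, hBA, hBr, hB⟩
    have ha0 : 0 < a := (Finset.mem_Icc.mp (hA ha)).1
    refine h (insert 1 ((B.image (· / a) : Finset ℕ) : Set ℕ)) ⟨B.image (· / a), ?_, ?_, rfl⟩ a ?_
    · rw [Finset.card_image_of_injOn, hBr]
      intro x hx y hy hxy
      have h1 := (hB x (by simpa using hx)).2
      have h2 := (hB y (by simpa using hy)).2
      simp only at hxy
      rw [← Nat.mul_div_cancel' h1, hxy, Nat.mul_div_cancel' h2]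
    · intro b hb
      rw [Finset.mem_image] at hb
      obtain ⟨x, hx, rfl⟩ := hb
      obtain ⟨h1, t, rfl⟩ := hB x hx
      rw [Nat.mul_div_cancel_left _ ha0]
      have hx0 : 0 < a * t := (Finset.mem_Icc.mp (hA (hBA hx))).1
      rcases t with _ | _ | t
      · simp at hx0
      · simp at h1
      · omega
    · intro d hd
      rcases hd with rfl | hd
      · rwa [mul_one]
      · rw [Finset.mem_coe, Finset.mem_image] at hd
        obtain ⟨x, hx, rfl⟩ := hd
        rw [Nat.mul_div_cancel' (hB x hx).2]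
        exact hBA hx
  · rintro h D ⟨B, hBr, hB, rfl⟩ m hm
    have hmA : m ∈ A := by
      have := hm 1 (Set.mem_insert _ _)
      rwa [mul_one] at this
    have hm0 : 0 < m := (Finset.mem_Icc.mp (hA hmA)).1
    refine h m hmA ⟨B.image (m * ·), ?_, ?_, ?_⟩
    · intro x hx
      rw [Finset.mem_image] at hx
      obtain ⟨b, hb, rfl⟩ := hx
      exact hm b (Set.mem_insert_of_mem _ (by simpa using hb))
    · rw [Finset.card_image_of_injective _ (fun a b hab => Nat.eq_of_mul_eq_mul_left hm0 hab), hBr]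
    · intro x hx
      rw [Finset.mem_image] at hx
      obtain ⟨b, hb, rfl⟩ := hx
      refine ⟨?_, Dvd.intro _ rfl⟩
      have := hB b hb
      nlinarith

theorem fr_eq (r n : ℕ) : fr r n = ex (fam r) n := by
  unfold fr ex
  congr 1
  ext k
  simp only [Set.mem_ofPred_eq]
  constructor
  · rintro ⟨A, h1, h2, h3⟩
    exact ⟨A, h1, (avoids_iff h1).mpr h2, h3⟩
  · rintro ⟨A, h1, h2, h3⟩
    exact ⟨A, h1, (avoids_iff h1).mp h2, h3⟩

theorem admissible_iff {A : Finset ℕ} : Admissible A ↔ AdmissibleR 2 A := by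
  classical
  constructor
  · rintro h a ha ⟨B, hBA, hB2, hB⟩
    obtain ⟨b, c, hbc, rfl⟩ := Finset.card_eq_two.mp hB2
    have hb := hB b (by simp)
    have hc := hB c (by simp)
    exact h a ha b (hBA (by simp)) c (hBA (by simp)) hb.1.symm hc.1.symm hbc ⟨hb.2, hc.2⟩
  · intro h a ha b hb c hc hab hac hbc hd
    refine h a ha ⟨{b, c}, ?_, Finset.card_pair hbc, ?_⟩
    · intro x hx
      rw [Finset.mem_insert, Finset.mem_singleton] at hx
      rcases hx with rfl | rfl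
      · exact hb
      · exact hc
    · intro x hx
      rw [Finset.mem_insert, Finset.mem_singleton] at hx
      rcases hx with rfl | rfl
      · exact ⟨hab.symm, hd.1⟩
      · exact ⟨hac.symm, hd.2⟩

theorem f_eq_fr (n : ℕ) : f n = fr 2 n := by
  unfold f fr
  simp only [admissible_iff]

theorem f_eq_lib (n : ℕ) : f n = Pool.Agent.Y924.DV.f n := by
  unfold f Pool.Agent.Y924.DV.f Pool.Agent.Y924.DV.mx
  congr 1
  ext k
  simp only [Set.mem_ofPred_eq]
  constructor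
  · rintro ⟨A, h1, h2, h3⟩
    refine ⟨A, h1, fun _ _ => trivial, ?_, h3⟩
    intro a ha b hb c hc hab hac hbc h4 h5
    exact h2 a ha b hb c hc hab hac hbc ⟨h4, h5⟩
  · rintro ⟨A, h1, _, h2, h3⟩
    refine ⟨A, h1, ?_, h3⟩
    intro a ha b hb c hc hab hac hbc h4
    exact h2 a ha b hb c hc hab hac hbc h4.1 h4.2

theorem fr_ge (r n : ℕ) (hr : 1 ≤ r) : (r : ℝ) / (r + 1) * n ≤ fr r n := by
  classical
  have hbdd : BddAbove {k | ∃ A : Finset ℕ, A ⊆ Finset.Icc 1 n ∧ AdmissibleR r A ∧ A.card = k} := by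
    refine ⟨n, ?_⟩
    rintro k ⟨A, hA, _, rfl⟩
    calc A.card ≤ (Finset.Icc 1 n).card := Finset.card_le_card hA
      _ = n := by simp
  have h1 : (Finset.Ioc (n / (r + 1)) n).card ≤ fr r n := by
    refine le_csSup hbdd ⟨Finset.Ioc (n / (r + 1)) n, ?_, ?_, rfl⟩
    · intro x hx
      rw [Finset.mem_Ioc] at hx
      rw [Finset.mem_Icc]
      exact ⟨lt_of_le_of_lt (Nat.zero_le _) hx.1, hx.2⟩
    · rintro a ha ⟨B, hBA, hBr, hB⟩
      rw [Finset.mem_Ioc] at ha
      have ha0 : 0 < a := lt_of_le_of_lt (Nat.zero_le _) ha.1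
      have h2 : B ⊆ (Finset.Icc 2 r).image (a * ·) := by
        intro b hb
        obtain ⟨hba, t, rfl⟩ := hB b hb
        have hbn := Finset.mem_Ioc.mp (hBA hb)
        rw [Finset.mem_image]
        refine ⟨t, ?_, rfl⟩
        rw [Finset.mem_Icc]
        constructor
        · rcases t with _ | _ | t
          · simp at hbn
          · simp at hba
          · omega
        · by_contra hlt
          push Not at hlt
          have h3 : n < a * (r + 1) := by
            have := Nat.lt_mul_of_div_lt ha.1 (Nat.succ_pos r)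
            simpa using this
          have h4 : a * (r + 1) ≤ a * t := Nat.mul_le_mul_left a hlt
          omega
      have h5 := Finset.card_le_card h2
      have h6 : ((Finset.Icc 2 r).image (a * ·)).card ≤ (Finset.Icc 2 r).card := Finset.card_image_le
      rw [Nat.card_Icc] at h6
      omega
  rw [Nat.card_Ioc] at h1
  have h2 : ((n / (r + 1) : ℕ) : ℝ) ≤ n / ((r : ℝ) + 1) := by
    have := @Nat.cast_div_le ℝ _ _ _ n (r + 1)
    push_cast at this
    exact this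
  have h3 : n / (r + 1) ≤ n := Nat.div_le_self _ _
  have h4 : ((n - n / (r + 1) : ℕ) : ℝ) ≤ fr r n := by exact_mod_cast h1
  rw [Nat.cast_sub h3] at h4
  have h5 : (r : ℝ) / (r + 1) * n = n - n / ((r : ℝ) + 1) := by
    have : (r : ℝ) + 1 ≠ 0 := by positivity
    field_simp
    ring
  linarith

theorem c_of {r : ℕ} (hr : 1 ≤ r) {c : ℝ}
    (hc : Tendsto (fun n : ℕ => (fr r n : ℝ) / n) atTop (𝓝 c)) : (r : ℝ) / (r + 1) ≤ c := by
  refine ge_of_tendsto hc ?_
  filter_upwards [eventually_gt_atTop 0] with n hn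
  have hn0 : (0 : ℝ) < n := by exact_mod_cast hn
  rw [le_div_iff₀ hn0]
  exact fr_ge r n hr

/-- **Theorem.** (1) With a number `c` in `[0.67294, 0.673]`,
`|f n - c n| ≤ C n exp(-(1/64) √(log n log log n))` for all `n ≥ 3`.
(2) The same error term, with one constant `C` for all `r ≥ 1`, for subsets of `[1,n]` in which no
element divides `r` others; here `c` is at least `r/(r+1)`.
(3) The same for all `L`-local families, with `C (L+1)` in place of `C`; the number `c` is at most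
`dens N` for all `N` and at least `dens N - 1/N` for all `N > L`. -/
theorem result :
    (∃ C c : ℝ, 0.67294 ≤ c ∧ c ≤ 0.673 ∧
      ∀ n : ℕ, 3 ≤ n → |(f n : ℝ) - c * n| ≤
        C * (n * Real.exp (-(1 / 64) * √(Real.log n * Real.log (Real.log n))))) ∧
    (∃ C : ℝ, ∀ r : ℕ, 1 ≤ r → ∃ c : ℝ, (r : ℝ) / (r + 1) ≤ c ∧ c ≤ 1 ∧
      ∀ n : ℕ, 3 ≤ n → |(fr r n : ℝ) - c * n| ≤
        C * (n * Real.exp (-(1 / 64) * √(Real.log n * Real.log (Real.log n))))) ∧
    (∃ C : ℝ, ∀ (L : ℕ) (𝓓 : Set (Set ℕ)), IsLocal L 𝓓 → ∃ c : ℝ, 0 ≤ c ∧ c ≤ 1 ∧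
      (∀ n : ℕ, 3 ≤ n → |(ex 𝓓 n : ℝ) - c * n| ≤
        C * (L + 1) * (n * Real.exp (-(1 / 64) * √(Real.log n * Real.log (Real.log n))))) ∧
      (∀ N : ℕ, c ≤ dens 𝓓 N) ∧ ∀ N : ℕ, L < N → dens 𝓓 N ≤ c + 1 / N) := by
  obtain ⟨C, hC, h⟩ := general
  refine ⟨?_, ⟨C, fun r hr => ?_⟩, ⟨C, fun L 𝓓 h𝓓 => ?_⟩⟩
  · obtain ⟨c, -, -, h3, h4, -⟩ := h 0 (fam 2) (fam_local 2)
    obtain ⟨c', g1, g2, g3, -⟩ := Pool.Agent.Y924.DV.main
    have hcc : c' = c := by
      refine tendsto_nhds_unique g1 ?_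
      simp only [← f_eq_lib, f_eq_fr, fr_eq]
      exact h4
    subst hcc
    refine ⟨C, c', g2, g3, fun n hn => ?_⟩
    have := h3 n hn
    rw [f_eq_fr, fr_eq]
    unfold err at this
    simpa using this
  · obtain ⟨c, -, h2, h3, h4, -⟩ := h 0 (fam r) (fam_local r)
    refine ⟨c, ?_, h2, fun n hn => ?_⟩
    · simp only [← fr_eq] at h4
      exact c_of hr h4
    · have := h3 n hn
      rw [fr_eq]
      unfold err at this
      simpa using this
  · obtain ⟨c, h1, h2, h3, -, h5, h6⟩ := h L 𝓓 h𝓓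
    exact ⟨c, h1, h2, h3, h5, h6⟩

end Pool.Agent.Results.MP_24d8b2_nt.ErrorTerm
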